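import Pool.Agent.H498R2.HO.Rel

/-!
ROOM HO (helper498): orders 0 and 1 of the curvature polynomial vanish.
-/

set_option autoImplicit false

namespace H498HO

open H902HO

/-- dual numbers over `P` -/
structure D2 where
  a : P
  b : P

namespace D2

instance : Add D2 := ⟨fun p q => ⟨p.a + q.a, p.b + q.b⟩⟩
instance : Sub D2 := ⟨fun p q => ⟨p.a - q.a, p.b - q.b⟩⟩
instance : Neg D2 := ⟨fun p => ⟨-p.a, -p.b⟩⟩
instance : Mul D2 := ⟨fun p q => ⟨p.a * q.a, p.a * q.b + p.b * q.a⟩⟩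

@[simp] theorem add_a (p q : D2) : (p + q).a = p.a + q.a := rfl
@[simp] theorem add_b (p q : D2) : (p + q).b = p.b + q.b := rfl
@[simp] theorem sub_a (p q : D2) : (p - q).a = p.a - q.a := rfl
@[simp] theorem sub_b (p q : D2) : (p - q).b = p.b - q.b := rfl
@[simp] theorem neg_a (p : D2) : (-p).a = -p.a := rfl
@[simp] theorem neg_b (p : D2) : (-p).b = -p.b := rfl
@[simp] theorem mul_a (p q : D2) : (p * q).a = p.a * q.a := rfl
@[simp] theorem mul_b (p q : D2) : (p * q).b = p.a * q.b + p.b * q.a := rfl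

/-- constant -/
def co (p : P) : D2 := ⟨p, P.num 0⟩
/-- linear -/
def li (p : P) : D2 := ⟨P.num 0, p⟩

/-- the general matrix -/
def w : Sym D2 :=
  ⟨co (.var 3), co (.var 5), co (.var 7), co (.var 11), co (.var 13), co (.var 17)⟩
/-- the general matrix -/
def q : Sym D2 :=
  ⟨co (.var 19), co (.var 23), co (.var 29), co (.var 31), co (.var 37), co (.var 41)⟩
/-- the general vector -/
def v : T D2 := ⟨co (.var 43), co (.var 47), co (.var 53)⟩

/-- the series to first order -/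
def se1 : D2 := PPc (co (.num 0)) (co (.num 1)) w q v (li (.var 101)) (co (.num 0))
    (co (.var 2)) (co .sn) (co (.num 1)) (li (.var 61)) (co (.num 1)) (li (.var 67))
    (co (.num 1)) (li (.var 71)) (co (.num 1)) (li (.var 73))
    (li (.var 79)) (li (.var 83)) (li (.var 89)) (li (.var 97))

/-- the relation to series -/
def Rl (x : ℕ → ℝ) (s : ℝ) (d : D2) (y : S3 ℝ) : Prop := d.a.ev x s = y.a ∧ d.b.ev x s = y.b

theorem rr {x : ℕ → ℝ} {s : ℝ} (hs : x 2 ^ 2 + s ^ 2 = 1) : RelRing (Rl x s) where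
  add := by
    rintro a b a' b' ⟨h1, h2⟩ ⟨h3, h4⟩
    exact ⟨by simp [P.ev_add, h1, h3], by simp [P.ev_add, h2, h4]⟩
  sub := by
    rintro a b a' b' ⟨h1, h2⟩ ⟨h3, h4⟩
    exact ⟨by simp [P.ev_sub, h1, h3], by simp [P.ev_sub, h2, h4]⟩
  neg := by
    rintro a a' ⟨h1, h2⟩
    exact ⟨by simp [P.ev_neg, h1], by simp [P.ev_neg, h2]⟩
  mul := by
    rintro a b a' b' ⟨h1, h2⟩ ⟨h3, h4⟩
    exact ⟨by simp [P.ev_mul hs, h1, h3], by simp [P.ev_mul hs, P.ev_add, h1, h2, h3, h4]⟩

theorem chk_a : se1.a.isZ = true := by decide +kernel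

theorem chk_b : se1.b.isZ = true := by decide +kernel

end D2

/-- valuation -/
def val (w q : Sym ℝ) (v : T ℝ) (lam c o1 o2 r k g1 g2 g3 g4 e : ℝ) (n : ℕ) : ℝ :=
  if n = 2 then c else if n = 3 then w.xx else if n = 5 then w.xy else if n = 7 then w.xz
  else if n = 11 then w.yy else if n = 13 then w.yz else if n = 17 then w.zz
  else if n = 19 then q.xx else if n = 23 then q.xy else if n = 29 then q.xz
  else if n = 31 then q.yy else if n = 37 then q.yz else if n = 41 then q.zz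
  else if n = 43 then v.x else if n = 47 then v.y else if n = 53 then v.z
  else if n = 59 then lam else if n = 61 then o1 else if n = 67 then o2 else if n = 71 then r
  else if n = 73 then k else if n = 79 then g1 else if n = 83 then g2 else if n = 89 then g3
  else if n = 97 then g4 else if n = 101 then e else 0

theorem ID1 : St_ID1 := by
  intro w q v lam c s o1 o2 r k g1 g2 g3 g4 e hcs
  set x := val w q v lam c o1 o2 r k g1 g2 g3 g4 e with hx
  have hr : RelRing (D2.Rl x s) := D2.rr (by simpa [hx, val] using hcs)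
  have ev : ∀ n y, n.Prime → x n = y → (P.var n).ev x s = y := fun n y hn h => by
    rw [P.ev_var hn, h]
  have hco : ∀ (p : P) (y : ℝ), p.ev x s = y → D2.Rl x s (D2.co p) (co y) := fun p y h =>
    ⟨h, by simp [D2.co, co, P.ev_num]⟩
  have hli : ∀ (p : P) (y : ℝ), p.ev x s = y → D2.Rl x s (D2.li p) (li y) := fun p y h =>
    ⟨by simp [D2.li, li, P.ev_num], h⟩
  have hcs' : ∀ y : ℝ, D2.Rl x s (D2.co (.num 1)) (cs y) := fun y =>
    ⟨by simp [D2.co, cs, P.ev_num], by simp [D2.co, cs, P.ev_num]⟩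
  have h := rel_PPc (Rel := D2.Rl x s) (o := D2.co (.num 0)) (o' := co 0)
    (i := D2.co (.num 1)) (i' := co 1) (w := D2.w) (w' := w.map co) (q := D2.q) (q' := q.map co)
    (v := D2.v) (v' := v.map co) (e := D2.li (.var 101)) (e' := li e)
    (l := D2.co (.num 0)) (l' := ⟨0, 0, lam * e ^ 2⟩)
    (hco _ _ (by simp [P.ev_num])) (hco _ _ (by simp [P.ev_num]))
    ⟨hco _ _ (ev _ _ (by norm_num) rfl), hco _ _ (ev _ _ (by norm_num) rfl),
      hco _ _ (ev _ _ (by norm_num) rfl), hco _ _ (ev _ _ (by norm_num) rfl),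
      hco _ _ (ev _ _ (by norm_num) rfl), hco _ _ (ev _ _ (by norm_num) rfl)⟩
    ⟨hco _ _ (ev _ _ (by norm_num) rfl), hco _ _ (ev _ _ (by norm_num) rfl),
      hco _ _ (ev _ _ (by norm_num) rfl), hco _ _ (ev _ _ (by norm_num) rfl),
      hco _ _ (ev _ _ (by norm_num) rfl), hco _ _ (ev _ _ (by norm_num) rfl)⟩
    ⟨hco _ _ (ev _ _ (by norm_num) rfl), hco _ _ (ev _ _ (by norm_num) rfl),
      hco _ _ (ev _ _ (by norm_num) rfl)⟩
    (hli _ _ (ev _ _ (by norm_num) rfl))
    ⟨by simp [D2.co, P.ev_num], by simp [D2.co, P.ev_num]⟩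
    (hco (.var 2) c (ev _ _ (by norm_num) rfl)) (hco _ _ P.ev_sn)
    (hcs' o1) (hli (.var 61) o1 (ev _ _ (by norm_num) rfl))
    (hcs' o2) (hli (.var 67) o2 (ev _ _ (by norm_num) rfl))
    (hcs' r) (hli (.var 71) r (ev _ _ (by norm_num) rfl))
    (hcs' k) (hli (.var 73) k (ev _ _ (by norm_num) rfl))
    (hli (.var 79) g1 (ev _ _ (by norm_num) rfl)) (hli (.var 83) g2 (ev _ _ (by norm_num) rfl))
    (hli (.var 89) g3 (ev _ _ (by norm_num) rfl)) (hli (.var 97) g4 (ev _ _ (by norm_num) rfl))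
  have h1 := P.ev_isZ (x := x) (s := s) D2.chk_a
  have h2 := P.ev_isZ (x := x) (s := s) D2.chk_b
  exact ⟨h.1.symm.trans h1, h.2.symm.trans h2⟩

end H498HO

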