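import Pool.Agent.H498R2.HO.ID1

/-!
ROOM HO (helper498): the quadratic part of the curvature polynomial at `W = 1`.
-/

set_option autoImplicit false

namespace H498HO

open H902HO

/-- truncated series over `P`: `a + b t + (c/2) t²` -/
structure D3 where
  a : P
  b : P
  c : P

namespace D3

instance : Add D3 := ⟨fun p q => ⟨p.a + q.a, p.b + q.b, p.c + q.c⟩⟩
instance : Sub D3 := ⟨fun p q => ⟨p.a - q.a, p.b - q.b, p.c - q.c⟩⟩
instance : Neg D3 := ⟨fun p => ⟨-p.a, -p.b, -p.c⟩⟩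
instance : Mul D3 := ⟨fun p q =>
  ⟨p.a * q.a, p.a * q.b + p.b * q.a, p.a * q.c + (p.b * q.b + p.b * q.b) + p.c * q.a⟩⟩

@[simp] theorem add_a (p q : D3) : (p + q).a = p.a + q.a := rfl
@[simp] theorem add_b (p q : D3) : (p + q).b = p.b + q.b := rfl
@[simp] theorem add_c (p q : D3) : (p + q).c = p.c + q.c := rfl
@[simp] theorem sub_a (p q : D3) : (p - q).a = p.a - q.a := rfl
@[simp] theorem sub_b (p q : D3) : (p - q).b = p.b - q.b := rfl
@[simp] theorem sub_c (p q : D3) : (p - q).c = p.c - q.c := rfl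
@[simp] theorem neg_a (p : D3) : (-p).a = -p.a := rfl
@[simp] theorem neg_b (p : D3) : (-p).b = -p.b := rfl
@[simp] theorem neg_c (p : D3) : (-p).c = -p.c := rfl
@[simp] theorem mul_a (p q : D3) : (p * q).a = p.a * q.a := rfl
@[simp] theorem mul_b (p q : D3) : (p * q).b = p.a * q.b + p.b * q.a := rfl
@[simp] theorem mul_c (p q : D3) :
    (p * q).c = p.a * q.c + (p.b * q.b + p.b * q.b) + p.c * q.a := rfl

/-- constant -/
def co (p : P) : D3 := ⟨p, P.num 0, P.num 0⟩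
/-- linear -/
def li (p : P) : D3 := ⟨P.num 0, p, P.num 0⟩
/-- cosine -/
def cs (p : P) : D3 := ⟨P.num 1, P.num 0, -(p * p)⟩

/-- the identity -/
def w : Sym D3 :=
  ⟨co (.num 1), co (.num 0), co (.num 0), co (.num 1), co (.num 0), co (.num 1)⟩
/-- the general matrix -/
def q : Sym D3 :=
  ⟨co (.var 19), co (.var 23), co (.var 29), co (.var 31), co (.var 37), co (.var 41)⟩
/-- the general vector -/
def v : T D3 := ⟨co (.var 43), co (.var 47), co (.var 53)⟩

/-- the series to second order -/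
def se2 : D3 := PPc (co (.num 0)) (co (.num 1)) w q v (li (.var 101)) (co (.num 0))
    (co (.var 2)) (co .sn) (cs (.var 61)) (li (.var 61)) (cs (.var 67)) (li (.var 67))
    (cs (.var 71)) (li (.var 71)) (cs (.var 73)) (li (.var 73))
    (li (.var 79)) (li (.var 83)) (li (.var 89)) (li (.var 97))

/-- the relation to series -/
def Rl (x : ℕ → ℝ) (s : ℝ) (d : D3) (y : S3 ℝ) : Prop :=
  d.a.ev x s = y.a ∧ d.b.ev x s = y.b ∧ d.c.ev x s = 2 * y.c

theorem rr {x : ℕ → ℝ} {s : ℝ} (hs : x 2 ^ 2 + s ^ 2 = 1) : RelRing (Rl x s) where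
  add := by
    rintro a b a' b' ⟨h1, h2, h5⟩ ⟨h3, h4, h6⟩
    refine ⟨?_, ?_, ?_⟩ <;> simp only [P.ev_add, add_a, add_b, add_c, S3.add_a, S3.add_b,
      S3.add_c, h1, h2, h3, h4, h5, h6] <;> ring
  sub := by
    rintro a b a' b' ⟨h1, h2, h5⟩ ⟨h3, h4, h6⟩
    refine ⟨?_, ?_, ?_⟩ <;> simp only [P.ev_sub, sub_a, sub_b, sub_c, S3.sub_a, S3.sub_b,
      S3.sub_c, h1, h2, h3, h4, h5, h6] <;> ring
  neg := by
    rintro a a' ⟨h1, h2, h5⟩
    refine ⟨?_, ?_, ?_⟩ <;> simp only [P.ev_neg, neg_a, neg_b, neg_c, S3.neg_a, S3.neg_b,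
      S3.neg_c, h1, h2, h5] <;> ring
  mul := by
    rintro a b a' b' ⟨h1, h2, h5⟩ ⟨h3, h4, h6⟩
    refine ⟨?_, ?_, ?_⟩ <;> simp only [P.ev_mul hs, P.ev_add, mul_a, mul_b, mul_c, S3.mul_a,
      S3.mul_b, S3.mul_c, h1, h2, h3, h4, h5, h6] <;> ring

end D3

/-- the sum of squares of ID2 over any ring -/
def sos {R : Type*} [Add R] [Sub R] [Mul R] (n : ℤ → R) (vz c s o1 o2 r k g1 g2 g3 g4 e : R) : R :=
  let sq : R → R := fun x => x * x
  n 4 * sq k + n 4 * sq r + sq (o1 + k - r * c) + sq (o2 - r * s)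
    + n 3 * (sq (o2 + g2) + sq (o1 * s - o2 * c + c * (e * vz) - g4)
      + sq (n 3 * (k - r * c) + c * (o1 * c + o2 * s) - c * s * (e * vz) + g4 * s)
      + sq (n (-3) * r * s + c * (o1 * s - o2 * c) - s * s * (e * vz) - g2 - g4 * c))
    + n 3 * (sq g1 + sq g3 + sq (g1 + g3)) + sq (e * vz)

/-- the same over `P` -/
def sosP : P := sos P.num (.var 53) (.var 2) .sn (.var 61) (.var 67) (.var 71) (.var 73)
  (.var 79) (.var 83) (.var 89) (.var 97) (.var 101)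

theorem chk2 : (D3.se2.c - P.num 2 * sosP).isZ = true := by decide +kernel

theorem ID2 : St_ID2 := by
  intro q v c s o1 o2 r k g1 g2 g3 g4 e hcs
  set x := val one3 q v 0 c o1 o2 r k g1 g2 g3 g4 e with hx
  have hxs : x 2 ^ 2 + s ^ 2 = 1 := by simpa [hx, val] using hcs
  have hr : RelRing (D3.Rl x s) := D3.rr hxs
  have ev : ∀ n y, n.Prime → x n = y → (P.var n).ev x s = y := fun n y hn h => by
    rw [P.ev_var hn, h]
  have hco : ∀ (p : P) (y : ℝ), p.ev x s = y → D3.Rl x s (D3.co p) (co y) := fun p y h =>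
    ⟨h, by simp [D3.co, co, P.ev_num], by simp [D3.co, co, P.ev_num]⟩
  have hli : ∀ (p : P) (y : ℝ), p.ev x s = y → D3.Rl x s (D3.li p) (li y) := fun p y h =>
    ⟨by simp [D3.li, li, P.ev_num], h, by simp [D3.li, li, P.ev_num]⟩
  have hcs' : ∀ (p : P) (y : ℝ), p.ev x s = y → D3.Rl x s (D3.cs p) (cs y) := fun p y h =>
    ⟨by simp [D3.cs, cs, P.ev_num], by simp [D3.cs, cs, P.ev_num], by
      simp only [D3.cs, cs, P.ev_neg, P.ev_mul hxs, h]; ring⟩
  have e61 : (P.var 61).ev x s = o1 := ev _ _ (by norm_num) rfl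
  have e67 : (P.var 67).ev x s = o2 := ev _ _ (by norm_num) rfl
  have e71 : (P.var 71).ev x s = r := ev _ _ (by norm_num) rfl
  have e73 : (P.var 73).ev x s = k := ev _ _ (by norm_num) rfl
  have e79 : (P.var 79).ev x s = g1 := ev _ _ (by norm_num) rfl
  have e83 : (P.var 83).ev x s = g2 := ev _ _ (by norm_num) rfl
  have e89 : (P.var 89).ev x s = g3 := ev _ _ (by norm_num) rfl
  have e97 : (P.var 97).ev x s = g4 := ev _ _ (by norm_num) rfl
  have e101 : (P.var 101).ev x s = e := ev _ _ (by norm_num) rfl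
  have e2 : (P.var 2).ev x s = c := ev _ _ (by norm_num) rfl
  have e53 : (P.var 53).ev x s = v.z := ev _ _ (by norm_num) rfl
  have n0 : (P.num 0).ev x s = 0 := by simp [P.ev_num]
  have n1 : (P.num 1).ev x s = 1 := by simp [P.ev_num]
  have h := rel_PPc (Rel := D3.Rl x s) (o := D3.co (.num 0)) (o' := co 0)
    (i := D3.co (.num 1)) (i' := co 1) (w := D3.w) (w' := one3.map co) (q := D3.q)
    (q' := q.map co)
    (v := D3.v) (v' := v.map co) (e := D3.li (.var 101)) (e' := li e)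
    (l := D3.co (.num 0)) (l' := ⟨0, 0, 0 * e ^ 2⟩)
    (hco _ _ n0) (hco _ _ n1)
    ⟨hco _ _ n1, hco _ _ n0, hco _ _ n0, hco _ _ n1, hco _ _ n0, hco _ _ n1⟩
    ⟨hco _ _ (ev _ _ (by norm_num) rfl), hco _ _ (ev _ _ (by norm_num) rfl),
      hco _ _ (ev _ _ (by norm_num) rfl), hco _ _ (ev _ _ (by norm_num) rfl),
      hco _ _ (ev _ _ (by norm_num) rfl), hco _ _ (ev _ _ (by norm_num) rfl)⟩
    ⟨hco _ _ (ev _ _ (by norm_num) rfl), hco _ _ (ev _ _ (by norm_num) rfl),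
      hco _ _ (ev _ _ (by norm_num) rfl)⟩
    (hli _ _ e101)
    ⟨by simp [D3.co, P.ev_num], by simp [D3.co, P.ev_num], by simp [D3.co, P.ev_num]⟩
    (hco _ _ e2) (hco _ _ P.ev_sn)
    (hcs' _ _ e61) (hli _ _ e61) (hcs' _ _ e67) (hli _ _ e67)
    (hcs' _ _ e71) (hli _ _ e71) (hcs' _ _ e73) (hli _ _ e73)
    (hli _ _ e79) (hli _ _ e83) (hli _ _ e89) (hli _ _ e97)
  have h1 := P.ev_isZ (x := x) (s := s) chk2
  rw [P.ev_sub, P.ev_mul hxs, P.ev_num, sub_eq_zero] at h1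
  have h2 := h.2.2.symm.trans h1
  have h3 : sosP.ev x s = sos (fun n : ℤ => (n : ℝ)) v.z c s o1 o2 r k g1 g2 g3 g4 e := by
    simp only [sosP, sos, P.ev_add, P.ev_mul hxs, P.ev_sub, P.ev_num, P.ev_sn, e2, e53, e61, e67,
      e71, e73, e79, e83, e89, e97, e101]
  rw [h3] at h2
  have h4 : (ser one3 q v 0 c s o1 o2 r k g1 g2 g3 g4 e).c =
      sos (fun n : ℤ => (n : ℝ)) v.z c s o1 o2 r k g1 g2 g3 g4 e := by
    push_cast at h2
    exact mul_left_cancel₀ two_ne_zero h2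
  rw [h4]
  simp only [sos]
  push_cast
  ring

end H498HO

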