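import Pool.Agent.H498R2.HO.ID1

/-!
ROOM HO (helper498): dependence of the curvature polynomial on `lam`.
-/

set_option autoImplicit false

namespace H498HO

open H902HO

namespace D2

/-- the linear part in `lam` -/
def se3 : D2 := PPc (co (.num 0)) (co (.num 1)) w q v (co (.num 0)) (li (.var 59))
    (co (.var 2)) (co .sn) (co (.num 1)) (co (.num 0)) (co (.num 1)) (co (.num 0))
    (co (.num 1)) (co (.num 0)) (co (.num 1)) (co (.num 0))
    (co (.num 0)) (co (.num 0)) (co (.num 0)) (co (.num 0))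

/-- `hX` over any ring -/
def hXP {R : Type*} [Add R] [Sub R] [Mul R] (n : ℤ → R) (w q : Sym R) : R :=
  w.yz * w.zz * q.yz - w.yz * w.yz * q.zz + w.yz * w.yz * q.xx + w.xz * w.zz * q.xz
    - n 2 * w.xz * w.yz * q.xy - w.xz * w.yy * q.xz - w.xz * w.xz * q.zz + w.xz * w.xz * q.yy
    + w.xy * w.yz * q.xz + w.xy * w.xz * q.yz - w.xx * w.yz * q.yz

/-- the general matrix -/
def wP : Sym P := ⟨.var 3, .var 5, .var 7, .var 11, .var 13, .var 17⟩
/-- the general matrix -/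
def qP : Sym P := ⟨.var 19, .var 23, .var 29, .var 31, .var 37, .var 41⟩

theorem chk3 : (se3.b - P.num 4 * P.var 59 * hXP P.num wP qP).isZ = true := by decide +kernel

/-- the relation to pairs of series -/
def Rl3 (x : ℕ → ℝ) (s : ℝ) (d : D2) (y : S3 ℝ × S3 ℝ) : Prop :=
  d.a.ev x s = y.1.a ∧ y.2.a = y.1.a ∧ y.2.b = y.1.b ∧ y.1.c = y.2.c + d.b.ev x s

theorem rr3 {x : ℕ → ℝ} {s : ℝ} (hs : x 2 ^ 2 + s ^ 2 = 1) : RelRing (Rl3 x s) where
  add := by
    rintro a b a' b' ⟨h1, h2, h3, h4⟩ ⟨k1, k2, k3, k4⟩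
    refine ⟨?_, ?_, ?_, ?_⟩
    · simp only [P.ev_add, add_a, Prod.fst_add, S3.add_a, h1, k1]
    · simp only [Prod.fst_add, Prod.snd_add, S3.add_a, h2, k2]
    · simp only [Prod.fst_add, Prod.snd_add, S3.add_b, h3, k3]
    · simp only [P.ev_add, add_b, Prod.fst_add, Prod.snd_add, S3.add_c, h4, k4]; ring
  sub := by
    rintro a b a' b' ⟨h1, h2, h3, h4⟩ ⟨k1, k2, k3, k4⟩
    refine ⟨?_, ?_, ?_, ?_⟩
    · simp only [P.ev_sub, sub_a, Prod.fst_sub, S3.sub_a, h1, k1]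
    · simp only [Prod.fst_sub, Prod.snd_sub, S3.sub_a, h2, k2]
    · simp only [Prod.fst_sub, Prod.snd_sub, S3.sub_b, h3, k3]
    · simp only [P.ev_sub, sub_b, Prod.fst_sub, Prod.snd_sub, S3.sub_c, h4, k4]; ring
  neg := by
    rintro a a' ⟨h1, h2, h3, h4⟩
    refine ⟨?_, ?_, ?_, ?_⟩
    · simp only [P.ev_neg, neg_a, Prod.fst_neg, S3.neg_a, h1]
    · simp only [Prod.fst_neg, Prod.snd_neg, S3.neg_a, h2]
    · simp only [Prod.fst_neg, Prod.snd_neg, S3.neg_b, h3]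
    · simp only [P.ev_neg, neg_b, Prod.fst_neg, Prod.snd_neg, S3.neg_c, h4]; ring
  mul := by
    rintro a b a' b' ⟨h1, h2, h3, h4⟩ ⟨k1, k2, k3, k4⟩
    refine ⟨?_, ?_, ?_, ?_⟩
    · simp only [P.ev_mul hs, mul_a, Prod.fst_mul, S3.mul_a, h1, k1]
    · simp only [Prod.fst_mul, Prod.snd_mul, S3.mul_a, h2, k2]
    · simp only [Prod.fst_mul, Prod.snd_mul, S3.mul_b, h2, k2, h3, k3]
    · simp only [P.ev_mul hs, P.ev_add, mul_b, Prod.fst_mul, Prod.snd_mul, S3.mul_c, h1, k1,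
        h2, k2, h3, k3, h4, k4]
      ring

end D2

theorem ID3 : St_ID3 := by
  intro w q v lam c s o1 o2 r k g1 g2 g3 g4 e hcs
  set x := val w q v (lam * e ^ 2) c o1 o2 r k g1 g2 g3 g4 e with hx
  have hxs : x 2 ^ 2 + s ^ 2 = 1 := by simpa [hx, val] using hcs
  have hr : RelRing (D2.Rl3 x s) := D2.rr3 hxs
  have ev : ∀ n y, n.Prime → x n = y → (P.var n).ev x s = y := fun n y hn h => by
    rw [P.ev_var hn, h]
  have n0 : (P.num 0).ev x s = 0 := by simp [P.ev_num]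
  have n1 : (P.num 1).ev x s = 1 := by simp [P.ev_num]
  have hco : ∀ (p : P) (y : ℝ), p.ev x s = y → D2.Rl3 x s (D2.co p) (co y, co y) := fun p y h =>
    ⟨h, rfl, rfl, by simp [D2.co, P.ev_num]⟩
  have hli : ∀ (y : ℝ), D2.Rl3 x s (D2.co (.num 0)) (li y, li y) := fun y =>
    ⟨by simp [D2.co, li, P.ev_num], rfl, rfl, by simp [D2.co, P.ev_num]⟩
  have hcs' : ∀ (y : ℝ), D2.Rl3 x s (D2.co (.num 1)) (cs y, cs y) := fun y =>
    ⟨by simp [D2.co, cs, P.ev_num], rfl, rfl, by simp [D2.co, P.ev_num]⟩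
  have e3 : (P.var 3).ev x s = w.xx := ev _ _ (by norm_num) rfl
  have e5 : (P.var 5).ev x s = w.xy := ev _ _ (by norm_num) rfl
  have e7 : (P.var 7).ev x s = w.xz := ev _ _ (by norm_num) rfl
  have e11 : (P.var 11).ev x s = w.yy := ev _ _ (by norm_num) rfl
  have e13 : (P.var 13).ev x s = w.yz := ev _ _ (by norm_num) rfl
  have e17 : (P.var 17).ev x s = w.zz := ev _ _ (by norm_num) rfl
  have e19 : (P.var 19).ev x s = q.xx := ev _ _ (by norm_num) rfl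
  have e23 : (P.var 23).ev x s = q.xy := ev _ _ (by norm_num) rfl
  have e29 : (P.var 29).ev x s = q.xz := ev _ _ (by norm_num) rfl
  have e31 : (P.var 31).ev x s = q.yy := ev _ _ (by norm_num) rfl
  have e37 : (P.var 37).ev x s = q.yz := ev _ _ (by norm_num) rfl
  have e41 : (P.var 41).ev x s = q.zz := ev _ _ (by norm_num) rfl
  have e59 : (P.var 59).ev x s = lam * e ^ 2 := ev _ _ (by norm_num) rfl
  have h := rel_PPc (Rel := D2.Rl3 x s) (o := D2.co (.num 0)) (o' := (co 0, co 0))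
    (i := D2.co (.num 1)) (i' := (co 1, co 1)) (w := D2.w)
    (w' := w.map fun y => (co y, co y)) (q := D2.q) (q' := q.map fun y => (co y, co y))
    (v := D2.v) (v' := v.map fun y => (co y, co y)) (e := D2.co (.num 0)) (e' := (li e, li e))
    (l := D2.li (.var 59)) (l' := (⟨0, 0, lam * e ^ 2⟩, ⟨0, 0, 0 * e ^ 2⟩))
    (hco _ _ n0) (hco _ _ n1)
    ⟨hco _ _ e3, hco _ _ e5, hco _ _ e7, hco _ _ e11, hco _ _ e13, hco _ _ e17⟩
    ⟨hco _ _ e19, hco _ _ e23, hco _ _ e29, hco _ _ e31, hco _ _ e37, hco _ _ e41⟩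
    ⟨hco _ _ (ev _ _ (by norm_num) rfl), hco _ _ (ev _ _ (by norm_num) rfl),
      hco _ _ (ev _ _ (by norm_num) rfl)⟩
    (hli _)
    ⟨by simp [D2.li, P.ev_num], rfl, rfl, by simp [D2.li, e59]⟩
    (hco (.var 2) c (ev _ _ (by norm_num) rfl)) (hco _ _ P.ev_sn)
    (hcs' o1) (hli o1) (hcs' o2) (hli o2) (hcs' r) (hli r) (hcs' k) (hli k)
    (hli g1) (hli g2) (hli g3) (hli g4)
  have p1 := map_PPc (Prod.fst : S3 ℝ × S3 ℝ → S3 ℝ) (fun _ _ => rfl) (fun _ _ => rfl)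
    (fun _ _ => rfl) (fun _ => rfl) (co 0, co 0) (co 1, co 1) (w.map fun y => (co y, co y))
    (q.map fun y => (co y, co y)) (v.map fun y => (co y, co y)) (li e, li e)
    (⟨0, 0, lam * e ^ 2⟩, ⟨0, 0, 0 * e ^ 2⟩) (co c, co c) (co s, co s) (cs o1, cs o1)
    (li o1, li o1) (cs o2, cs o2) (li o2, li o2) (cs r, cs r) (li r, li r) (cs k, cs k)
    (li k, li k) (li g1, li g1) (li g2, li g2) (li g3, li g3) (li g4, li g4)
  have p2 := map_PPc (Prod.snd : S3 ℝ × S3 ℝ → S3 ℝ) (fun _ _ => rfl) (fun _ _ => rfl)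
    (fun _ _ => rfl) (fun _ => rfl) (co 0, co 0) (co 1, co 1) (w.map fun y => (co y, co y))
    (q.map fun y => (co y, co y)) (v.map fun y => (co y, co y)) (li e, li e)
    (⟨0, 0, lam * e ^ 2⟩, ⟨0, 0, 0 * e ^ 2⟩) (co c, co c) (co s, co s) (cs o1, cs o1)
    (li o1, li o1) (cs o2, cs o2) (li o2, li o2) (cs r, cs r) (li r, li r) (cs k, cs k)
    (li k, li k) (li g1, li g1) (li g2, li g2) (li g3, li g3) (li g4, li g4)
  have h1 := P.ev_isZ (x := x) (s := s) D2.chk3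
  rw [P.ev_sub, P.ev_mul hxs, P.ev_mul hxs, P.ev_num, e59, sub_eq_zero] at h1
  have h3 : (D2.hXP P.num D2.wP D2.qP).ev x s = hX w q := by
    simp only [D2.hXP, D2.wP, D2.qP, P.ev_add, P.ev_mul hxs, P.ev_sub, P.ev_num, e3, e5, e7, e11,
      e13, e17, e19, e23, e29, e31, e37, e41, hX]
    push_cast
    ring
  rw [h3] at h1
  have h4 := h.2.2.2
  rw [p1, p2] at h4
  have h5 := h4.trans (congrArg₂ (· + ·) rfl h1)
  refine Eq.trans ?_ h5
  rfl

end H498HO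

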